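import Pool.Agent.Q170.ZP.MultiFam
import Pool.Agent.Q170.ZP.MultiCount

/-!
# MP_e573c6_ag: Zilber-Pink in `Y(1)^n` for almost all integral members of families with several
parameters

The Shimura variety `Y(1)^n` is identified with `ℂ^n` by the elliptic modular function
`jj = j = E₄³ / Δ`.

**Families.** Let `K ⊂ ℂ` be a countable field. We consider families `X_t` of subsets of `Y(1)^n` with
`r` parameters `t = (t_1, …, t_r)`, given by
* a family `B_t ⊆ P^N` of projective algebraic sets, defined by forms `G k` with coefficients in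
  `K[t_1, …, t_r]` (`OnB`),
* quotients `f_i = A_i / B_i` of forms of the same degree `δ_i` with coefficients in
  `K[t_1, …, t_r]`,
* functions `s_i` integral over `K[j]`, `R_i (s_i, j) = 0` with `R_i` monic in the first variable
  (level one: `R_i = S - J`, `s_i = j`; in general modular functions of any level without poles
  in the upper half plane), of degree at most `T` in both variables, and polynomials
  `c_i ∈ K[t_1, …, t_r]`:
`X_t = {x | ∃ y ∈ B_t, ∃ s, ∀ i, R_i (s_i, x_i) = 0, c_i (t) s_i = A_i (y) / B_i (y)}`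
(`scaledImage`), the image of a family of subvarieties of a product of modular curves of any levels.

The family degenerates along `m + 2` hypersurfaces `D_l = 0` of the parameter space, `D_l ∈ ℤ[t]`,
outside the hypersurfaces `E_l = 0`, in the following sense: if `t ∈ ℂ^r`, `D_l (t) = 0` and
`E_l (t) ≠ 0` then
* no point of `B_t` lies on `m + 1` of the divisors of the `f_i` (`InGeneralPosition`), and
* `c_i = D_l ^ e_{l i} b_{l i}` with `b_{l i} (t) ≠ 0`,
and the orders `e_{l i} > 0` are multiplicatively independent modulo squares: no product of distinct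
`e_{l i}` times a positive integer without prime factors larger than `T` is a square (`IndExp`; this
is so if the `e_{l i}` are distinct prime numbers larger than `T`, see the first part of
`DegenerationsFromDimension`). (For example `B_t = B` and `f_i` do not depend on `t` and are in general
position, the `D_l` are any polynomials which are relatively prime in pairs,
`c_i = ∏ l, D_l ^ e_{l i}`, `E_l = ∏ l' ≠ l, D_l'`.)

**Theorem.** `NoAtypical` for `X_t` (`Pool.Agent.Y152.RP.Fam.NoAtypical`, as in the starting files)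
says: `X_t` has no atypical intersection with special subvarieties `Z` of `Y(1)^n`, every irreducible
closed subset of `X_t ∩ Z` has dimension at most `dim Z + m - n`, and the same bound holds for the
transcendence degrees of the points of `X_t ∩ Z` over `K`; in particular `X_t ∩ Z` is empty if `Z` has
codimension larger than `m`. The constant coordinates of `Z` can be special points or integral over the
ring generated by any given finite subset `Γ` of `K`.
1. There is a number `Q` such that `NoAtypical` holds for `X_t` for all `t ∈ ℤ^r` such that every one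
   of the `m + 2` integers `D_l (t)` has a prime factor `p > Q` which does not divide `E_l (t)`.
2. If the `D_l` are not constant and `D_l`, `E_l` have no common factor in `ℤ[t]`, then for every
   `ε > 0` the number of the `t ∈ ℤ^r` with `|t_j| ≤ H` for which `NoAtypical` does not hold for `X_t`
   is at most `C H ^ (r - 1 + ε)`: Zilber-Pink holds for 100 per cent of the integral members of the
   family, with a power saving. (The exponent `r - 1` is optimal for the set of 1., for example if
   `D_l = t_1`. Rational points of projective parameter spaces are included: take homogeneous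
   polynomials and the coprime integral coordinates.)

In the starting files and in `DegenerationsFromDimension` the parameter space is one-dimensional.

**Proof.** 1. By the Nullstellensatz in the variables `t`, `y`, powers of `E_l y_j` and of
`E_l` times the `b_{l i}` are combinations of `D_l`, the forms `G k` and the products `A_i B_i` of any
`m + 1` indices, with coefficients in an algebraic closure `k` of `K`
(`Pool.Agent.Q170.ZP.Multi.nearP`). So at all places of `ℂ` above a large prime factor `p` of `D_l (t)`
which does not divide `E_l (t)` all but at most `m` of the coordinates of a point of `X_t` have poles, of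
known orders. The rest is the parity argument of `DegenerationsFromDimension`
(`Pool.Agent.Q170.ZP.coreW`), with places above different primes. 2. We single out a variable `t_j` which occurs in `D_l`. There is a
Bezout relation `A D_l + B E_l = c` with `c ≠ 0` a polynomial in the other variables. If the values of
`c` and of the leading coefficient of `D_l` in `t_j` are not zero, and all prime factors of `D_l (t)`
larger than `Q` divide `E_l (t)`, then all prime factors of `D_l (t)` divide `Q! c (t)`, and there are
only `O(H ^ ε)` such integers below a power of `H`, each of which is a value of at most `2 deg D_l`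
numbers `t_j`.
-/

set_option autoImplicit false

namespace Pool.Agent.Results.MP_e573c6_ag.MultiParameterFamilies

open MvPolynomial
open Pool.Agent.Q170.ZP (IndExp)
open Pool.Agent.Y152.RP.Fam (NoAtypical)
open Pool.Agent.Q170.ZP.Multi (evalAt OnB InGeneralPosition scaledImage)

/-- Zilber-Pink for the integral members of families with `r` parameters which degenerate along
`m + 2` hypersurfaces. -/
theorem result (K : Subfield ℂ) [Countable K] (κ : Type) [Finite κ] (r N n m T : ℕ)
    (G : κ → MvPolynomial (Fin (N + 1)) (MvPolynomial (Fin r) K))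
    (hG : ∀ k, ∃ e, (G k).IsHomogeneous e)
    (A B : Fin n → MvPolynomial (Fin (N + 1)) (MvPolynomial (Fin r) K)) (δ : Fin n → ℕ)
    (hA : ∀ i, (A i).IsHomogeneous (δ i)) (hB : ∀ i, (B i).IsHomogeneous (δ i))
    (R : Fin n → Polynomial (Polynomial K)) (hR : ∀ i, (R i).Monic)
    (hT : ∀ i u w, ((R i).coeff u).coeff w ≠ 0 → u ≤ T ∧ w ≤ T)
    (c : Fin n → MvPolynomial (Fin r) K)
    (D E : Fin (m + 2) → MvPolynomial (Fin r) ℤ) (b : Fin (m + 2) → Fin n → MvPolynomial (Fin r) K)
    (e : Fin (m + 2) → Fin n → ℕ) (hind : IndExp T e)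
    (hc : ∀ l i, c i = MvPolynomial.map (Int.castRingHom K) (D l) ^ e l i * b l i)
    (hpos : ∀ l (t : Fin r → ℂ), aeval t (D l) = 0 → aeval t (E l) ≠ 0 →
      InGeneralPosition t m G A B ∧ ∀ i, evalAt K t (b l i) ≠ 0)
    (Γ : Finset ℂ) (hΓ : ∀ γ ∈ Γ, γ ∈ K) :
    (∃ Q : ℕ, ∀ t : Fin r → ℤ,
      (∀ l, ∃ p : ℕ, p.Prime ∧ Q < p ∧ (p : ℤ) ∣ eval t (D l) ∧ ¬ (p : ℤ) ∣ eval t (E l)) →
      NoAtypical (algebraMap (Algebra.adjoin ℤ (Γ : Set ℂ)) ℂ) K m
        (scaledImage (fun j => (t j : ℂ)) G A B R c)) ∧
    ((∀ l, 0 < (D l).totalDegree ∧ IsRelPrime (D l) (E l)) → ∀ ε : ℝ, 0 < ε →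
      ∃ C : ℝ, 0 < C ∧ ∀ H : ℕ, 1 ≤ H →
        (({t : Fin r → ℤ | (∀ j, |t j| ≤ H) ∧
          ¬ NoAtypical (algebraMap (Algebra.adjoin ℤ (Γ : Set ℂ)) ℂ) K m
            (scaledImage (fun j => (t j : ℂ)) G A B R c)}.ncard : ℕ) : ℝ) ≤
          C * (H : ℝ) ^ ((r : ℝ) - 1 + ε)) := by
  classical
  obtain ⟨Q, hQ⟩ := Pool.Agent.Q170.ZP.Multi.multiW K κ r N n m T (m + 2) le_rfl G hG A B δ hA hB
    R hR hT c D E b e hind hc hpos Γ hΓ
  refine ⟨⟨Q, hQ⟩, fun hDE ε hε => ?_⟩
  choose C hC hcount using fun l =>
    Pool.Agent.Q170.ZP.Count.card_bad (D l) (E l) (hDE l).1 (hDE l).2 Q ε hε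
  refine ⟨∑ l, C l, Finset.sum_pos (fun l _ => hC l) ⟨0, Finset.mem_univ _⟩, fun H hH => ?_⟩
  have h1 : {t : Fin r → ℤ | (∀ j, |t j| ≤ H) ∧
      ¬ NoAtypical (algebraMap (Algebra.adjoin ℤ (Γ : Set ℂ)) ℂ) K m
        (scaledImage (fun j => (t j : ℂ)) G A B R c)} ⊆
      ((Finset.univ.biUnion fun l => (Pool.Agent.Q170.ZP.Count.box r H).filter fun t =>
        ¬ ∃ p : ℕ, p.Prime ∧ Q < p ∧ (p : ℤ) ∣ eval t (D l) ∧ ¬ (p : ℤ) ∣ eval t (E l) :
          Finset (Fin r → ℤ)) : Set (Fin r → ℤ)) := by
    rintro t ⟨ht, hbad⟩
    by_contra hcon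
    refine hbad (hQ t fun l => ?_)
    by_contra hl
    refine hcon ?_
    rw [Finset.mem_coe, Finset.mem_biUnion]
    exact ⟨l, Finset.mem_univ l, Finset.mem_filter.2
      ⟨Pool.Agent.Q170.ZP.Count.mem_box.2 ht, hl⟩⟩
  have h2 := (Set.ncard_le_ncard h1 (Finset.finite_toSet _)).trans
    ((Set.ncard_coe_finset _).le.trans Finset.card_biUnion_le)
  calc ((({t : Fin r → ℤ | (∀ j, |t j| ≤ H) ∧
          ¬ NoAtypical (algebraMap (Algebra.adjoin ℤ (Γ : Set ℂ)) ℂ) K m
            (scaledImage (fun j => (t j : ℂ)) G A B R c)}).ncard : ℕ) : ℝ)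
      ≤ ((∑ l, ((Pool.Agent.Q170.ZP.Count.box r H).filter fun t =>
        ¬ ∃ p : ℕ, p.Prime ∧ Q < p ∧ (p : ℤ) ∣ eval t (D l) ∧
          ¬ (p : ℤ) ∣ eval t (E l)).card : ℕ) : ℝ) := by exact_mod_cast h2
    _ = ∑ l, (((Pool.Agent.Q170.ZP.Count.box r H).filter fun t =>
        ¬ ∃ p : ℕ, p.Prime ∧ Q < p ∧ (p : ℤ) ∣ eval t (D l) ∧
          ¬ (p : ℤ) ∣ eval t (E l)).card : ℝ) := by push_cast; rfl
    _ ≤ ∑ l, C l * (H : ℝ) ^ ((r : ℝ) - 1 + ε) := Finset.sum_le_sum fun l _ => hcount l H hH
    _ = (∑ l, C l) * (H : ℝ) ^ ((r : ℝ) - 1 + ε) := by rw [Finset.sum_mul]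

end Pool.Agent.Results.MP_e573c6_ag.MultiParameterFamilies
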