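import Pool.Agent.Q170.PO.Px15

/-!
# MP_e573c6_ag: no atypical intersections at all for one hundred percent of the rational multiples of
a rational curve in `Y(1)^n`, common poles allowed

`Y(1)^n` is identified with `ℂ^n` by the elliptic modular function `jj = j = E₄³ / Δ`. A special
subvariety of `Y(1)^n` of dimension `r` is given by a `SpecialVariety`: its points are the points
`x` with `x_i = const_i` for the constant coordinates, and `x_i = j (g_i z_l)` for the coordinates of
class `l`, `z_1, …, z_r` free in the upper half plane and `g_i` a fixed integral matrix of positive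
determinant. In the definition of special subvarieties the constants are values of `j` at CM points.
We allow also all constants which are integral over the ring generated by a given set `Γ`.

**No atypical intersections.** `NoAtypical Γ S`: there is *no point at all* of `S` on a special
subvariety of codimension at least two, and each proper special subvariety contains only finitely
many points of `S`. So for a curve `S` with this property the set `atyp (S)` of the problem is empty.

**The curves.** Let `C` be a rational curve over `ℚ`, given by `n` rational functions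
`x_i (s) = f_i (s) / g_i (s)` with `f_i, g_i ∈ ℤ[s]`. For a rational number `c / m` we consider the
curve `(c / m) C` in `Y(1)^n`, the set of all points `(c x_1 (s) / m, …, c x_n (s) / m)`, where `s` is a
point of the projective line at which all `x_i` are finite (`multiple c m f g`; with homogeneous
coordinates `(s : t)`, the point `s = ∞` is included).

We write `zero i P` and `pole i P` for the orders of the zero and of the pole of `x_i` at a point `P` of
the projective line (`multiplicity`; `P = none` is the point `∞`). Two coordinates `j ≠ l` are *related*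
at `P` if the rational function `x_l / x_j` has a root of unity as value at `P` (as limit, if `x_j` and
`x_l` have poles at `P`). The hypothesis on the curve `C` (`GeneralPosition f g`):

* the zeros of the `x_i` are simple, a zero of `x_i` is not a zero of `x_j` for `j ≠ i`, and not a pole
  of any `x_j`; each `x_i` has a zero different from `0` and `∞` (this can be achieved by a change of
  the parameter);
* *at each point `P` of the projective line the orders of the poles of `x_1, …, x_n` are the same, with
  at most one exception*;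
* at each point `P` at most one pair of coordinates is related, and none if `P` is a zero or a pole of
  one of the `x_i`.

The last condition is necessary in this form or a similar one: if `x_1 = x_2`, `x_3 = x_4` at a point of
`C` then this is so at a point of all the multiples. It holds for almost all curves. For example let
`x_i = N ^ (k_i) p_i (s)`, where the `p_i ∈ ℤ[s]` have the same degree `d ≥ 2` and `n d` different
simple zeros and the `k_i ∈ ℕ` are different: if `k_j > k_l` and `N` is large, the number `x_l / x_j`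
has absolute value one only very near to the zeros of `p_j`, at a distance which is determined by
`k_j - k_l`, and its value at `∞` is `N ^ (k_l - k_j)` times a constant. So all hypotheses are satisfied
for large `N`; here all coordinates have the common pole `∞`.

**Theorem.** Let `C` be such a curve.

1. (Three primes.) There is `Q₁` such that for all `B₁` there is `Q₂` such that for all `B₂` there is
`Q₃` with the following property. Let `Γ` be a set of algebraic numbers and `c / m` a fraction with
`m ≠ 0` such that for `ν = 1, 2, 3` there is a prime number `p_ν > Q_ν` which divides `m` and does not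
divide `c`, such that the elements of `Γ` are integral at a place above `p_ν`, and `p_1 ≤ B_1`,
`p_2 ≤ B_2`. Then `(c / m) C` has no atypical intersections.

2. Let `Γ` be a finite set of algebraic numbers. There is `M ≥ 1` such that `(c / m) C` has no atypical
intersections for all reduced fractions `c / m` whose denominator is divisible by `M`.

3. (One hundred percent.) Let `Γ` be a finite set of algebraic numbers and `ε > 0`. For all large `H`,
the curve `(1 / m) C` has no atypical intersections for all integers `m` with `|m| ≤ H` with at most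
`ε (2 H + 1)` exceptions, and `(c / m) C` has no atypical intersections for all integers `c`, `m` with
`|c|, |m| ≤ H` with at most `ε (2 H + 1) ^ 2` exceptions (`m = 0` is counted as an exception).

**Relation to earlier work.** Daw and Orr proved that a curve over `Q̄` which is not contained in a
proper special subvariety and whose closure passes through the cusp `(∞, …, ∞)` has only finitely
many points on special subvarieties of codimension at least two; Habegger and Pila proved this for
asymmetric curves. They do not prove the absence of atypical points, and their hypotheses are not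
satisfied for instance if at the common poles of `x_1, …, x_{n-1}` the coordinate `x_n` has an
arbitrary finite value. The results for scaled curves in the starting files
(`MP_d83ecd_ag.ScaledImages` and others) and in `MP_d83ecd_ag.NoAtypicalMembers` assume that no two
coordinates have a common pole. `MP_d83ecd_ag.PrescribedPoles` is a statement on random numerators
`f_i` for fixed denominators; here the curve `C` is fixed and only the factor varies.

**Proof.** As for `MP_d83ecd_ag.PrescribedPoles`: the local theorem at a prime number `p` which divides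
`m` (`Pool.Agent.Q170.PO.PT2.local0`, `local1`, `Chart.pc`), which bounds the degrees of the isogenies
between the coordinates of an atypical point in terms of `p` and the degree of `C`, is compared with
the multiplicative relations modulo two other prime numbers. The conditions over `ℂ` imply the
conditions modulo `p` for almost all `p` (Nullstellensatz, `Pool.Agent.Q26.PO.spread`, `GPos.ch`), for
each bounded order of the roots of unity.
-/

set_option autoImplicit false

namespace Pool.Agent.Results.MP_e573c6_ag.MultiplesOfRationalCurves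

open H294ZP UpperHalfPlane Polynomial Filter Topology

/-- A special subvariety of dimension `r` of `Y(1)^n`. The constant coordinates are those with
`cls i = none`. The allowed constants are the singular moduli and the numbers which are integral
over the ring generated by `Γ`. -/
structure SpecialVariety (Γ : Set ℂ) (n r : ℕ) where
  cls : Fin n → Option (Fin r)
  surj : ∀ l : Fin r, ∃ i, cls i = some l
  mat : Fin n → Matrix (Fin 2) (Fin 2) ℤ
  det_pos : ∀ i, 0 < (mat i).det
  const : Fin n → ℂ
  allowed : ∀ i, (∃ τ : ℍ, IsCM τ ∧ const i = jj τ) ∨ IsIntegral (Algebra.adjoin ℤ Γ) (const i)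

/-- The points of a special subvariety of `Y(1)^n`. -/
def SpecialVariety.locus {Γ : Set ℂ} {n r : ℕ} (Z : SpecialVariety Γ n r) : Set (Fin n → ℂ) :=
  {x | ∃ z : Fin r → ℍ, ∀ i, (Z.cls i = none → x i = Z.const i) ∧
    ∀ l, Z.cls i = some l → ∃ w : ℍ,
      (w : ℂ) * (Z.mat i 1 0 * z l + Z.mat i 1 1) = Z.mat i 0 0 * z l + Z.mat i 0 1 ∧
      x i = jj w}

/-- There is no point of `S` on a special subvariety of codimension at least two, and each proper
special subvariety contains only finitely many points of `S`. -/
def NoAtypical (Γ : Set ℂ) {n : ℕ} (S : Set (Fin n → ℂ)) : Prop :=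
  (∀ (r : ℕ) (Z : SpecialVariety Γ n r), r + 2 ≤ n → ∀ x ∈ S, x ∉ Z.locus) ∧
  ∀ (r : ℕ) (Z : SpecialVariety Γ n r), r < n → {x | x ∈ S ∧ x ∈ Z.locus}.Finite

/-- The degree of the rational function `f_i / g_i` (for coprime `f_i`, `g_i`). -/
noncomputable def degree {n : ℕ} (f g : Fin n → ℤ[X]) (i : Fin n) : ℕ :=
  max (f i).natDegree (g i).natDegree

/-- The value at `(s, t)` of the binary form of degree `d` which belongs to the polynomial `P`. -/
noncomputable def form (d : ℕ) (P : ℤ[X]) (s t : ℂ) : ℂ :=
  ∑ k ∈ Finset.range (d + 1), (P.coeff k : ℂ) * s ^ k * t ^ (d - k)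

/-- The curve `(c / m) C` in `Y(1)^n`, where `C` is the curve `x_i = f_i / g_i`. -/
def multiple (c m : ℤ) {n : ℕ} (f g : Fin n → ℤ[X]) : Set (Fin n → ℂ) :=
  {x | ∃ s t : ℂ, (s ≠ 0 ∨ t ≠ 0) ∧ (∀ i, form (degree f g i) (g i) s t ≠ 0) ∧
    ∀ i, x i = c * form (degree f g i) (f i) s t / (m * form (degree f g i) (g i) s t)}

/-- The multiplicity of a point of the projective line (`none` is the point `∞`) in the divisor of
degree `d` defined by a polynomial of degree at most `d`. For `d = degree f g i` and coprime `f_i`,
`g_i` this is the order of the zero of `x_i = f_i / g_i` for `f_i` and of the pole for `g_i`. -/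
noncomputable def multiplicity (d : ℕ) (P : ℤ[X]) : Option ℂ → ℕ
  | some ρ => (P.map (Int.castRingHom ℂ)).rootMultiplicity ρ
  | none => d - P.natDegree

/-- The punctured neighbourhoods of a point of the projective line. -/
noncomputable def near : Option ℂ → Filter ℂ
  | some ρ => 𝓝[≠] ρ
  | none => Bornology.cobounded ℂ

/-- The value of `x_l / x_j` at the point `P` is a root of unity. -/
def Related {n : ℕ} (f g : Fin n → ℤ[X]) (P : Option ℂ) (j l : Fin n) : Prop :=
  ∃ (b : ℕ) (ζ : ℂ), 0 < b ∧ ζ ^ b = 1 ∧
    Tendsto (fun s : ℂ => (aeval s (f l) / aeval s (g l)) / (aeval s (f j) / aeval s (g j)))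
      (near P) (𝓝 ζ)

/-- The hypothesis on the curve `x_i = f_i / g_i`. -/
structure GeneralPosition {n : ℕ} (f g : Fin n → ℤ[X]) : Prop where
  num : ∀ i, f i ≠ 0
  den : ∀ i, g i ≠ 0
  simple : ∀ i P, multiplicity (degree f g i) (f i) P ≤ 1
  zeros : ∀ i j P, i ≠ j → multiplicity (degree f g i) (f i) P = 0 ∨
    multiplicity (degree f g j) (f j) P = 0
  zeros_poles : ∀ i j P, multiplicity (degree f g i) (f i) P = 0 ∨
    multiplicity (degree f g j) (g j) P = 0
  zero : ∀ i, ∃ ρ : ℂ, ρ ≠ 0 ∧ aeval ρ (f i) = 0
  poles : ∀ P, ∃ (a : Fin n) (k : ℕ), ∀ i, i ≠ a → multiplicity (degree f g i) (g i) P = k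
  related : ∀ P j l j' l', j ≠ l → j' ≠ l' → Related f g P j l → Related f g P j' l' →
    (j = j' ∧ l = l') ∨ (j = l' ∧ l = j')
  related_special : ∀ P j l, j ≠ l → (∃ i, multiplicity (degree f g i) (f i) P ≠ 0 ∨
    multiplicity (degree f g i) (g i) P ≠ 0) → ¬ Related f g P j l

/-- The elements of `Γ` are algebraic numbers, and they are integral at a place above the prime
number `p`: there are a complete algebraically closed extension `C` of `ℚ_p` and an embedding `φ` of the
field of the algebraic numbers into `C`, such that `φ γ` is integral for all `γ ∈ Γ`. -/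
def IntegralAbove (Γ : Set ℂ) (p : ℕ) : Prop :=
  ∃ (C : Type) (_ : NormedField C) (_ : IsUltrametricDist C) (_ : CompleteSpace C)
    (_ : CharZero C) (_ : IsAlgClosed C) (φ : algebraicClosure ℚ ℂ →+* C),
    ‖(p : C)‖ = (p : ℝ)⁻¹ ∧
    ∀ γ ∈ Γ, ∃ c : algebraicClosure ℚ ℂ, (c : ℂ) = γ ∧ ‖φ c‖ ≤ 1

/-- The prime number `p > Q` divides `m` and does not divide `c`, and `Γ` is integral above `p`. -/
def GoodPrime (Q : ℕ) (Γ : Set ℂ) (c m : ℤ) (p : ℕ) : Prop :=
  p.Prime ∧ Q < p ∧ (p : ℤ) ∣ m ∧ ¬ (p : ℤ) ∣ c ∧ IntegralAbove Γ p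

/-- Special subvarieties in the form used in the proof. -/
def SpecialVariety.toSV {Γ : Set ℂ} {n r : ℕ} (Z : SpecialVariety Γ n r) :
    Pool.Agent.Y226.ZM.SV Γ n r where
  cls := Z.cls
  mat := Z.mat
  det_pos := Z.det_pos
  const := Z.const
  int := fun i => by
    rcases Z.allowed i with ⟨τ, hτ, h⟩ | h
    · rw [h]
      exact (singular_modulus_integral τ hτ).tower_top
    · exact h

theorem noAtypical_of {Γ : Set ℂ} {n : ℕ} {S : Set (Fin n → ℂ)}
    (h : Pool.Agent.Q170.UZ.NoAt Γ S) : NoAtypical Γ S :=
  ⟨fun r Z hr x hx hZ => h.1 r Z.toSV hr x hx hZ,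
    fun r Z hr => (h.2 r Z.toSV hr).subset fun _ hx => hx⟩

theorem mul_form (c : ℤ) (d : ℕ) (P : ℤ[X]) (s t : ℂ) :
    Pool.Agent.Q170.PO.hfm d (C c * P) s t = c * form d P s t := by
  unfold form Pool.Agent.Q170.PO.hfm
  rw [Finset.mul_sum]
  refine Finset.sum_congr rfl fun k _ => ?_
  rw [coeff_C_mul, Int.cast_mul]
  ring

theorem multiple_eq (c m : ℤ) {n : ℕ} (f g : Fin n → ℤ[X]) :
    multiple c m f g = Pool.Agent.Q170.PO.crv m (degree f g) (fun i => C c * f i) g := by
  unfold multiple Pool.Agent.Q170.PO.crv
  simp only [mul_form]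
  rfl

theorem gpos_of {n : ℕ} {f g : Fin n → ℤ[X]} (h : GeneralPosition f g) :
    Pool.Agent.Q170.PO.GPos (degree f g) f g :=
  ⟨h.num, h.den, fun _ => le_max_left _ _, fun _ => le_max_right _ _, h.simple, h.zeros,
    h.zeros_poles, h.poles, h.zero, h.related, h.related_special⟩

/-- No atypical intersections for one hundred percent of the rational multiples of a rational curve
in `Y(1)^n`. -/
theorem result {n : ℕ} (f g : Fin n → ℤ[X]) (h : GeneralPosition f g) :
    (∃ Q₁ : ℕ, ∀ B₁ : ℕ, ∃ Q₂ : ℕ, ∀ B₂ : ℕ, ∃ Q₃ : ℕ, ∀ (Γ : Set ℂ) (c m : ℤ), m ≠ 0 →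
      (∃ p ≤ B₁, GoodPrime Q₁ Γ c m p) → (∃ p ≤ B₂, GoodPrime Q₂ Γ c m p) →
      (∃ p, GoodPrime Q₃ Γ c m p) → NoAtypical Γ (multiple c m f g)) ∧
    ∀ Γ : Finset ℂ, (∀ γ ∈ Γ, IsAlgebraic ℚ γ) →
      (∃ M : ℕ, 0 < M ∧ ∀ c m : ℤ, m ≠ 0 → (M : ℤ) ∣ m → IsCoprime c m →
        NoAtypical (Γ : Set ℂ) (multiple c m f g)) ∧
      ∀ ε : ℝ, 0 < ε → ∃ H₀ : ℕ, ∀ H : ℕ, H₀ ≤ H →
        ({m : ℤ | |m| ≤ H ∧
          ¬ (m ≠ 0 ∧ NoAtypical (Γ : Set ℂ) (multiple 1 m f g))}.ncard : ℝ) ≤
          ε * (2 * H + 1) ∧
        ({q : ℤ × ℤ | (|q.1| ≤ H ∧ |q.2| ≤ H) ∧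
          ¬ (q.2 ≠ 0 ∧ NoAtypical (Γ : Set ℂ) (multiple q.1 q.2 f g))}.ncard : ℝ) ≤
          ε * (2 * H + 1) ^ 2 := by
  have hG := gpos_of h
  refine ⟨?_, fun Γ hΓ => ⟨?_, fun ε hε => ?_⟩⟩
  · obtain ⟨Q₁, h₁⟩ := Pool.Agent.Q170.PO.critF hG
    refine ⟨Q₁, fun B₁ => ?_⟩
    obtain ⟨Q₂, h₂⟩ := h₁ B₁
    refine ⟨Q₂, fun B₂ => ?_⟩
    obtain ⟨Q₃, h₃⟩ := h₂ B₂
    refine ⟨Q₃, fun Γ c m hm k₁ k₂ k₃ => ?_⟩
    rw [multiple_eq]
    exact noAtypical_of (h₃ Γ c m hm k₁ k₂ k₃)
  · obtain ⟨M, hM, hb⟩ := Pool.Agent.Q170.PO.classF hG Γ hΓ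
    refine ⟨M, hM, fun c m hm h1 h2 => ?_⟩
    rw [multiple_eq]
    exact noAtypical_of (hb c m hm h1 h2)
  · have b1 : ∀ H : ℕ, {t : ℤ | |t| ≤ (H : ℤ)}.Finite := fun H =>
      (Set.finite_Icc (-(H : ℤ)) H).subset fun t ht => abs_le.1 ht
    have b2 : ∀ H : ℕ, {t : ℤ × ℤ | |t.1| ≤ (H : ℤ) ∧ |t.2| ≤ (H : ℤ)}.Finite := fun H =>
      ((b1 H).prod (b1 H)).subset fun t ht => ⟨ht.1, ht.2⟩
    obtain ⟨H₁, h₁⟩ := Pool.Agent.Q170.PO.densG hG Γ hΓ (fun _ : ℤ => (1 : ℤ)) (fun t => t)
      (fun H => {t : ℤ | |t| ≤ (H : ℤ)}) b1 (fun H => 2 * H + 1)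
      (fun Q ε hε => Pool.Agent.Q170.PO.den1 Q ε hε) ε hε
    obtain ⟨H₂, h₂⟩ := Pool.Agent.Q170.PO.densG hG Γ hΓ (fun t : ℤ × ℤ => t.1) (fun t => t.2)
      (fun H => {t : ℤ × ℤ | |t.1| ≤ (H : ℤ) ∧ |t.2| ≤ (H : ℤ)}) b2 (fun H => (2 * H + 1) ^ 2)
      (fun Q ε hε => Pool.Agent.Q170.PO.den2 Q ε hε) ε hε
    refine ⟨max H₁ H₂, fun H hH => ⟨?_, ?_⟩⟩
    · refine le_trans (Nat.cast_le.2 (Set.ncard_le_ncard ?_
        ((b1 H).subset fun t ht => ht.1))) (h₁ H ((le_max_left _ _).trans hH))
      rintro t ⟨h3, h4⟩
      refine ⟨h3, fun h5 => h4 ⟨h5.1, ?_⟩⟩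
      rw [multiple_eq]
      exact noAtypical_of h5.2
    · refine le_trans (Nat.cast_le.2 (Set.ncard_le_ncard ?_
        ((b2 H).subset fun t ht => ht.1))) (h₂ H ((le_max_right _ _).trans hH))
      rintro t ⟨h3, h4⟩
      refine ⟨h3, fun h5 => h4 ⟨h5.1, ?_⟩⟩
      rw [multiple_eq]
      exact noAtypical_of h5.2

end Pool.Agent.Results.MP_e573c6_ag.MultiplesOfRationalCurves
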