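import Pool.Agent.Q170.FP.Fin

/-!
# MP_e573c6_ag: Zilber-Pink for one hundred percent of the integral members of families of curves in
`Y(1)^n` with several parameters, with one degenerate hypersurface

`Y(1)^n` is identified with `ℂ^n` by the elliptic modular function `jj = j = E₄³ / Δ`. A special
subvariety of `Y(1)^n` of dimension `r` is given by a `SpecialVariety`: its points are the points
`x` with `x_i = const_i` for the constant coordinates, and `x_i = j (g_i z_l)` for the coordinates of
class `l`, `z_1, …, z_r` free in the upper half plane and `g_i` a fixed integral matrix of positive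
determinant. In the definition of special subvarieties the constants are values of `j` at CM points.
We allow also all constants which are integral over the ring generated by a given set `Γ`.

**Families of curves.** Let `F_τ` be finitely many forms in the homogeneous coordinates
`(X_1, Z_1), …, (X_n, Z_n)` of `(P¹)^n` (the variables are `(i, false) = X_i` and `(i, true) = Z_i`,
and `x_i = X_i / Z_i`), whose coefficients are polynomials in `r` parameters `t = (t_1, …, t_r)` over
the field `Q̄` of the algebraic numbers. They define an algebraic family of subschemes `V_t` of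
`(P¹)^n`. Let `f_i`, `g_i`, `P ∈ Q̄[t]` and `w_i > 0`, and let `X_t ⊂ Y(1)^n` be the set of all `x` with
`x_i = f_i (t) / (P (t) ^ w_i g_i (t)) * y_i`, `y ∈ V_t ∩ ℂ^n` (`member`).

Let `P = 0` be an irreducible hypersurface of the parameter space and let `t₀ ∈ ℂ^r` be a generic
point of it: `h (t₀) = 0` for `h ∈ Q̄[t]` if and only if `P` divides `h`. So `X_t` tends to the cusp
`(∞, …, ∞)` if `t` tends to a generic point of this hypersurface. We assume that the curve
`V_{t₀}` is in general position (`DegeneratesAt X t₀`):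

* `V_{t₀}` is integral: the ideals in `ℂ[x]` of `V_{t₀}` in the affine charts `Z_1 = … = Z_n = 1` and
  `X_a = 1`, `Z_i = 1` for `i ≠ a` are prime ideals; the coordinates `x_i` are not constant on
  `V_{t₀}`;
* for `i ≠ j` the ideal generated by the `F_τ` contains a form
  `∑_{u ≤ a, v ≤ b} g_{uv} X_i ^ u Z_i ^ (a - u) X_j ^ v Z_j ^ (b - v)`, where the `g_{uv}` are
  polynomials in `t` with `g_{00}, g_{a0}, g_{0b}, g_{ab} ≠ 0` at `t₀`, and where the form at `t₀` is
  not divisible by a form `X_i - c Z_i`. So the zeros and poles of `x_i` on `V_{t₀}` are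
  different from those of `x_j`, and `V_{t₀}` is a curve (for `n ≥ 2`) which is covered by the charts;
* `f_i (t₀) ≠ 0`, `g_i (t₀) ≠ 0`.

There is no other condition on the family. The curves `V_t` can vary along the hypersurface, they can
become singular or reducible on subsets of it, and outside of it they are arbitrary.

**Theorem.** 1. There are a number `Q` and a polynomial `E ∈ Q̄[t]` with `E (t₀) ≠ 0` such that for each
number field `K ⊂ ℂ` and each `t ∈ K^r` the following is true. Suppose that `P (t)`, `E (t)` and the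
`f_i (t) / g_i (t)` are in `K`, and that there is a prime `v` of `K` over a prime number `p > Q`,
unramified over `p`, such that `t` is integral at `v`, `v (P (t)) > 0` (`t` is on the hypersurface
modulo `v`), `v (E (t)) = 0` and `v (f_i (t) / g_i (t)) = 0`. Then
* there are only finitely many points of `X_t` on special subvarieties of codimension at least two,
* each proper special subvariety of `Y(1)^n` contains only finitely many points of `X_t`,
also if the constants of the special subvarieties are integral over the elements of `K` which are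
integral at `v`.

2. For every `ε > 0` there is `C` such that for all `H ≥ 1` these statements are true for all `t ∈ ℤ^r`
with `|t_j| ≤ H` with at most `C H ^ (r - 1 + ε)` exceptions (constants integral over any given finite
set `Γ` of algebraic numbers are allowed).

So the Zilber-Pink conjecture is true for one hundred percent of the integral members of the family,
with a power saving. Here `t ∈ ℤ^r` can be the coordinates of parameters in `𝓞_K^s` for a number
field `K` (`r = s [K : ℚ]`), since `P` need not have rational coefficients; rational points of a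
projective parameter space are given by homogeneous polynomials and coprime integers.

In the earlier files (`FamiliesAlmostAllParameters` here, `AllButFinitelyManyMembers`,
`OneDegenerateMember` of `MP_22337f_ag`) the parameter space is the projective line or an
elliptic curve, and the degenerate member is a single curve over `Q̄`. In
`MP_d83ecd_ag.MultiParameterFamilies` (subvarieties of any dimension `m`) `m + 2` hypersurfaces
are needed.

**Proof.** The data of the local theorem of the starting library (`Pool.Agent.Y92.ZX.core_all`), that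
is, power series expansions and relations for all coordinates and monomials of the curve, are
constructed for the curve `V_{t₀}` over the algebraic closure of `Q̄ (t₀)`. They are defined over a
finite extension of a localisation of `Q̄[t] / (P)`, and can be reduced modulo all `v` and `t` as in 1:
the homomorphism `t ↦ t mod v` extends to this ring (lemma of Gauss for `P`, integral extensions).
For 2 the norm `N (t)` of `P (t)` is considered. If all prime factors of `N (t)` larger than a constant
do not give such `v`, they divide `c (t')` for a polynomial `c ≠ 0` in the other variables `t'`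
(Bezout relation between `P` and `E`), and this is true only for `O (H ^ ε)` values of the remaining
variable.
-/

set_option autoImplicit false

namespace Pool.Agent.Results.MP_e573c6_ag.OneDegenerateHypersurface

open H294ZP UpperHalfPlane IsDedekindDomain NumberField

/-- A special subvariety of dimension `r` of `Y(1)^n`. The constant coordinates are those with
`cls i = none`. The allowed constants are the singular moduli and the numbers which are integral
over the ring generated by `Γ`. -/
structure SpecialVariety (Γ : Set ℂ) (n r : ℕ) where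
  cls : Fin n → Option (Fin r)
  surj : ∀ l : Fin r, ∃ i, cls i = some l
  mat : Fin n → Matrix (Fin 2) (Fin 2) ℤ
  det_pos : ∀ i, 0 < (mat i).det
  const : Fin n → ℂ
  allowed : ∀ i, (∃ τ : ℍ, IsCM τ ∧ const i = jj τ) ∨ IsIntegral (Algebra.adjoin ℤ Γ) (const i)

/-- The points of a special subvariety of `Y(1)^n`. -/
def SpecialVariety.locus {Γ : Set ℂ} {n r : ℕ} (Z : SpecialVariety Γ n r) : Set (Fin n → ℂ) :=
  {x | ∃ z : Fin r → ℍ, ∀ i, (Z.cls i = none → x i = Z.const i) ∧
    ∀ l, Z.cls i = some l → ∃ w : ℍ,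
      (w : ℂ) * (Z.mat i 1 0 * z l + Z.mat i 1 1) = Z.mat i 0 0 * z l + Z.mat i 0 1 ∧
      x i = jj w}

/-- There are only finitely many points of `S` on special subvarieties of codimension at least two,
and each proper special subvariety contains only finitely many points of `S`. -/
def ZilberPink (Γ : Set ℂ) {n : ℕ} (S : Set (Fin n → ℂ)) : Prop :=
  {x | x ∈ S ∧ ∃ (r : ℕ) (Z : SpecialVariety Γ n r), r + 2 ≤ n ∧ x ∈ Z.locus}.Finite ∧
  ∀ (r : ℕ) (Z : SpecialVariety Γ n r), r < n → {x | x ∈ S ∧ x ∈ Z.locus}.Finite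

/-- The homogeneous coordinates of the point with affine coordinates `y` in the chart `c` of
`(P¹)^n`. In the chart `none` they are `X_i = y_i`, `Z_i = 1` for all `i`, in the chart `some a`
they are `X_a = 1`, `Z_a = y_a`, and `X_i = y_i`, `Z_i = 1` for `i ≠ a`. -/
def coord {A : Type} [CommRing A] {n : ℕ} (c : Option (Fin n)) (y : Fin n → A)
    (q : Fin n × Bool) : A :=
  if c = some q.1 then (if q.2 then y q.1 else 1) else (if q.2 then 1 else y q.1)

/-- `F` is homogeneous in each pair of variables `(X_i, Z_i) = ((i, false), (i, true))`. -/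
def Multihomogeneous {A : Type} [CommRing A] {n : ℕ} (F : MvPolynomial (Fin n × Bool) A) : Prop :=
  ∃ δ : Fin n → ℕ, ∀ m ∈ F.support, ∀ i, m (i, false) + m (i, true) = δ i

/-- The form `∑ g_{uv} X_i ^ u Z_i ^ (a - u) X_j ^ v Z_j ^ (b - v)`. -/
noncomputable def pairForm {A : Type} [CommRing A] {n : ℕ} (i j : Fin n) (a b : ℕ)
    (g : ℕ → ℕ → A) : MvPolynomial (Fin n × Bool) A :=
  ∑ u ∈ Finset.range (a + 1), ∑ v ∈ Finset.range (b + 1),
    MvPolynomial.C (g u v) * MvPolynomial.X (i, false) ^ u * MvPolynomial.X (i, true) ^ (a - u) *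
      MvPolynomial.X (j, false) ^ v * MvPolynomial.X (j, true) ^ (b - v)

/-- The value at `t ∈ ℂ^r` of a polynomial whose coefficients are algebraic numbers. -/
noncomputable def value {r : ℕ} (t : Fin r → ℂ) :
    MvPolynomial (Fin r) (algebraicClosure ℚ ℂ) →+* ℂ :=
  MvPolynomial.eval₂Hom (algebraMap (algebraicClosure ℚ ℂ) ℂ) t

/-- The data of a family: the forms `F_τ`, the polynomials `f_i`, `g_i` and `P`, and the orders
`w_i`. -/
structure Family (n r : ℕ) (κ : Type) where
  F : κ → MvPolynomial (Fin n × Bool) (MvPolynomial (Fin r) (algebraicClosure ℚ ℂ))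
  f : Fin n → MvPolynomial (Fin r) (algebraicClosure ℚ ℂ)
  g : Fin n → MvPolynomial (Fin r) (algebraicClosure ℚ ℂ)
  P : MvPolynomial (Fin r) (algebraicClosure ℚ ℂ)
  w : Fin n → ℕ

/-- The ideal of `V_t` in the chart `c`. -/
noncomputable def chartIdeal {n r : ℕ} {κ : Type} (X : Family n r κ) (t : Fin r → ℂ)
    (c : Option (Fin n)) : Ideal (MvPolynomial (Fin n) ℂ) :=
  Ideal.span (Set.range fun k => MvPolynomial.eval₂
    (MvPolynomial.C.comp (value t)) (coord c MvPolynomial.X) (X.F k))

/-- `t₀` is a generic point of the hypersurface `P = 0`, and `V_{t₀}` is integral and in general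
position. -/
structure DegeneratesAt {n r : ℕ} {κ : Type} (X : Family n r κ) (t₀ : Fin r → ℂ) : Prop where
  ne : X.P ≠ 0
  generic : ∀ h, value t₀ h = 0 ↔ X.P ∣ h
  form : ∀ k, Multihomogeneous (X.F k)
  prime : ∀ c, (chartIdeal X t₀ c).IsPrime
  nonconstant : ∀ (i : Fin n) (c : ℂ), MvPolynomial.X i - MvPolynomial.C c ∉ chartIdeal X t₀ none
  general : ∀ i j : Fin n, i ≠ j → ∃ (a b : ℕ)
    (g : ℕ → ℕ → MvPolynomial (Fin r) (algebraicClosure ℚ ℂ)),
    value t₀ (g 0 0) ≠ 0 ∧ value t₀ (g a 0) ≠ 0 ∧ value t₀ (g 0 b) ≠ 0 ∧ value t₀ (g a b) ≠ 0 ∧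
    (∀ c : ℂ, ∃ v ≤ b, ∑ u ∈ Finset.range (a + 1), value t₀ (g u v) * c ^ u ≠ 0) ∧
    pairForm i j a b g ∈ Ideal.span (Set.range X.F)
  num : ∀ i, value t₀ (X.f i) ≠ 0
  den : ∀ i, value t₀ (X.g i) ≠ 0
  pole : ∀ i, 0 < X.w i

/-- The member `X_t` of the family: all `x` with `x_i = f_i (t) / (P (t) ^ w_i * g_i (t)) * y_i`, `y` in
`V_t ∩ ℂ^n`. -/
noncomputable def member {n r : ℕ} {κ : Type} (X : Family n r κ) (t : Fin r → ℂ) :
    Set (Fin n → ℂ) :=
  {x | ∃ y : Fin n → ℂ, (∀ k, MvPolynomial.eval₂ (value t) (coord none y) (X.F k) = 0) ∧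
    ∀ i, x i = value t (X.f i) / (value t X.P ^ X.w i * value t (X.g i)) * y i}

/-- The elements of `K` which are integral at `v`. -/
def integralAt {K : Type} [Field K] [NumberField K] (σ : K →+* ℂ) (v : HeightOneSpectrum (𝓞 K)) :
    Set ℂ :=
  {z | ∃ x : K, v.valuation K x ≤ 1 ∧ σ x = z}

/-- Special subvarieties in the form used in the proof. -/
def SpecialVariety.toSV {Γ : Set ℂ} {n r : ℕ} (Z : SpecialVariety Γ n r) :
    Pool.Agent.Y226.ZM.SV Γ n r where
  cls := Z.cls
  mat := Z.mat
  det_pos := Z.det_pos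
  const := Z.const
  int := fun i => by
    rcases Z.allowed i with ⟨τ, hτ, h⟩ | h
    · rw [h]
      exact (singular_modulus_integral τ hτ).tower_top
    · exact h

theorem zilberPink_of {Γ : Set ℂ} {n : ℕ} {S : Set (Fin n → ℂ)}
    (h : Pool.Agent.Y92.ZX.ZPC Γ S) : ZilberPink Γ S := by
  refine ⟨h.1.subset ?_, fun r Z hr => (h.2 r Z.toSV hr).subset ?_⟩
  · rintro x ⟨hx, r, Z, hr, hZ⟩
    exact ⟨hx, r, Z.toSV, hr, hZ⟩
  · rintro x ⟨hx, hZ⟩
    exact ⟨hx, hZ⟩

theorem member_eq {n r : ℕ} {κ : Type} (X : Family n r κ) (t : Fin r → ℂ) :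
    member X t = Pool.Agent.Q170.FP.memH X.F X.f X.g X.P X.w t := by
  ext x
  constructor
  · rintro ⟨y, hy, hx⟩
    exact ⟨y, hy, hx⟩
  · rintro ⟨y, hy, hx⟩
    exact ⟨y, hy, hx⟩

theorem exists_GM {n r : ℕ} {κ : Type} (X : Family n r κ) (t₀ : Fin r → ℂ)
    (h : DegeneratesAt X t₀) : ∃ d₀ : ℕ, Pool.Agent.Y92.ZX.GM d₀
      (MvPolynomial.eval₂Hom Pool.Agent.Y226.rA t₀) X.F := by
  classical
  have hgen : ∀ q : Fin n × Fin n, ∃ (a b : ℕ)
      (g : ℕ → ℕ → MvPolynomial (Fin r) (algebraicClosure ℚ ℂ)), q.1 ≠ q.2 →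
      value t₀ (g 0 0) ≠ 0 ∧ value t₀ (g a 0) ≠ 0 ∧ value t₀ (g 0 b) ≠ 0 ∧
      value t₀ (g a b) ≠ 0 ∧
      (∀ c : ℂ, ∃ v ≤ b, ∑ u ∈ Finset.range (a + 1), value t₀ (g u v) * c ^ u ≠ 0) ∧
      pairForm q.1 q.2 a b g ∈ Ideal.span (Set.range X.F) := by
    intro q
    by_cases hq : q.1 = q.2
    · exact ⟨0, 0, 0, fun h' => absurd hq h'⟩
    · obtain ⟨a, b, g, h1⟩ := h.general q.1 q.2 hq
      exact ⟨a, b, g, fun _ => h1⟩
  choose a b g hg using hgen
  refine ⟨∑ q, (a q + b q), h.form, h.prime, h.nonconstant, fun i j hij => ?_⟩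
  obtain ⟨h1, h2, h3, h4, h5, h6⟩ := hg (i, j) hij
  have h7 : a (i, j) + b (i, j) ≤ ∑ q, (a q + b q) :=
    Finset.single_le_sum (f := fun q => a q + b q) (fun _ _ => Nat.zero_le _)
      (Finset.mem_univ (i, j))
  exact ⟨a (i, j), b (i, j), g (i, j), by omega, by omega, h1, h2, h3, h4, h5, h6⟩

/-- The Zilber-Pink conjecture for one hundred percent of the integral members, with a power saving, of
families of curves in `Y(1)^n` with `r` parameters which degenerate along one hypersurface; a local
criterion for all number fields. -/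
theorem result {n r : ℕ} {κ : Type} [Finite κ] (X : Family n r κ) (t₀ : Fin r → ℂ)
    (h : DegeneratesAt X t₀) :
    (∃ (Q : ℕ) (E : MvPolynomial (Fin r) (algebraicClosure ℚ ℂ)), value t₀ E ≠ 0 ∧
      ∀ (K : Type) [Field K] [NumberField K] (σ : K →+* ℂ) (v : HeightOneSpectrum (𝓞 K)) (p : ℕ),
      p.Prime → Q < p → (p : 𝓞 K) ∈ v.asIdeal → (p : 𝓞 K) ∉ v.asIdeal ^ 2 →
      ∀ t : Fin r → K, (∀ l, v.valuation K (t l) ≤ 1) →
      ∀ (a b : K) (c : Fin n → K), σ a = value (fun l => σ (t l)) X.P → v.valuation K a < 1 →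
      σ b = value (fun l => σ (t l)) E → v.valuation K b = 1 →
      (∀ i, σ (c i) = value (fun l => σ (t l)) (X.f i) / value (fun l => σ (t l)) (X.g i) ∧
        v.valuation K (c i) = 1) →
      ZilberPink (integralAt σ v) (member X fun l => σ (t l))) ∧
    ∀ (Γ : Finset ℂ), (∀ γ ∈ Γ, IsAlgebraic ℚ γ) → ∀ ε : ℝ, 0 < ε →
      ∃ C : ℝ, 0 < C ∧ ∀ H : ℕ, 1 ≤ H →
        ({t : Fin r → ℤ | (∀ j, |t j| ≤ H) ∧
          ¬ ZilberPink (Γ : Set ℂ) (member X fun j => (t j : ℂ))}.ncard : ℝ) ≤
          C * (H : ℝ) ^ ((r : ℝ) - 1 + ε) := by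
  classical
  obtain ⟨d₀, hGM⟩ := exists_GM X t₀ h
  constructor
  · obtain ⟨Q, E, hE, hcrit⟩ := Pool.Agent.Q170.FP.crit n r κ d₀ X.F t₀ X.P h.ne
      (fun f => (h.generic f).1) hGM X.f X.g X.w h.pole
    refine ⟨Q, E, hE, ?_⟩
    intro K _ _ σ v p hp hQp hpv hpv2 t ht a b c ha hav hb hbv hc
    rw [member_eq]
    exact zilberPink_of (hcrit K σ v p hp hQp hpv hpv2 t ht a b c ha hav hb hbv hc)
  · intro Γ hΓ ε hε
    obtain ⟨C, hC, hcount⟩ := Pool.Agent.Q170.FP.count_members n r κ d₀ X.F t₀ X.P h.ne
      h.generic hGM X.f X.g h.num h.den X.w h.pole Γ hΓ ε hε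
    refine ⟨C, hC, fun H hH => le_trans ?_ (hcount H hH)⟩
    rw [Nat.cast_le]
    refine Set.ncard_le_ncard ?_ ((Finset.finite_toSet
      (Pool.Agent.Q170.ZP.Count.box r H)).subset ?_)
    · rintro t ⟨ht, hbad⟩
      refine ⟨ht, fun hz => hbad ?_⟩
      rw [member_eq]
      exact zilberPink_of hz
    · rintro t ⟨ht, -⟩
      exact Finset.mem_coe.2 (Pool.Agent.Q170.ZP.Count.mem_box.2 ht)

end Pool.Agent.Results.MP_e573c6_ag.OneDegenerateHypersurface
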