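import Pool.Agent.Q209.MG.Apply

/-!
# MP_e573c6_ag: Zilber-Pink in `Y(1)^n` and in tori for members of partially degenerating families with parameters in finitely generated groups, of bounded degree, radical, or roots of unity

The ambient variety is `Y(1)^n × G_m^k`, with coordinates indexed by `Fin n ⊕ Fin k`. For `k = 0` it is
`Y(1)^n`, identified with `ℂ^n` by the elliptic modular function `jj = j = E₄³ / Δ` (a Shimura variety; the
problem is about the curves, `m = 1`), for `n = 0` it is a torus.

**Families** `X_t` (`image`) with one parameter, over a countable field `K`. `X_t` is the set of the `x` with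
`c_i x_i = A_i (y) / B_i (y)` for the modular and `c_j x_j = c'_j A_j (y) / B_j (y)` for the torus
coordinates, `y ∈ B_t`, where `B_t` is a projective algebraic set defined by the forms `G l`, `A_i`, `B_i`
are forms of the same degree, and all the coefficients are polynomials in `t` over `K`. Let `e_i ≥ 0` be
the order of the zero of `c_i` and `e'_j ≥ 0` that of `c'_j` at a parameter `α`. `GeneralPosition` at `α`
says: no point of `B_α` lies on `m + 1` of the divisors `B_i = 0` (modular coordinates with `e_i = 0`) and
`A_i B_i = 0` (all others). So for `t` near to `α` at some place only the modular coordinates with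
`e_i > 0` tend to the cusp, and the torus coordinates have the orders `e'_j - e_j ∈ ℤ`, with at most
`m` exceptions.

**Conditions on the orders** at `L` parameters (`Orders`):
* `Independent`: no product of distinct positive orders of modular coordinates is a square;
* every modular coordinate is *not* degenerate at most `τ` times;
* `Rigid`: for `s ≤ m + 1` no linear subspace of `ℚ^k` of codimension `s` (or larger) is at a Hamming
  distance smaller than `s` from more than `β (s)` of the vectors `(e'_{l j} - e_{l j})_j`;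
* `β (s) + (m + 1 - s) (τ + 1) < L` for all `s ≤ m + 1`.
For `k = 0` this is `(m + 1) (τ + 1) < L`; `L` does not depend on `n`.

**Theorem.** `NoAtypical` for `X_t` says: `X_t` has no atypical intersection with the products `Z × C`,
`Z` a special subvariety of `Y(1)^n` and `C` a torsion coset: every irreducible closed subset of
`X_t ∩ (Z × C)` has dimension at most `dim Z + dim C + m - (n + k)`, and the same bound holds for
the transcendence degrees of the points. In particular Q1 holds for the curves `X_t`, `k = 0` and `m = 1`.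
This is true
1. (`S`-units) for all but finitely many `t` in any *finitely generated multiplicative group* of numbers
   algebraic over `K` (given by a finite set `F` of generators), if the family is partially degenerate
   at the elements of finite sets `D_1, …, D_M` of numbers algebraic over `K`, the orders at elements of
   any `L` of the sets satisfy `Orders`, and one of any `M - L + 1` of the sets has an element which is
   not zero (for instance `M = L`, and each `D_l` consists of one nonzero number). For example this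
   is so for all but finitely many of the numbers `t = γ ^ k`, `k ∈ ℤ`, for every `γ ≠ 0` algebraic over
   `K`. (In a finitely generated ring the union of any `M - L + 1` of the sets must have two elements, in
   a finitely generated field three elements: `MP_a325a5_ag.PartialDegenerations`.)
2. for all but finitely many algebraic numbers `t` of degree at most `d`, if the family is partially
   degenerate at `M ≥ L + 2 d` different rational numbers, any `L` of which satisfy `Orders`;
3. for all but finitely many of the *radical* `t`, `t ^ N ∈ ℚ` for some `N > 0`, of any degree, if it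
   is partially degenerate at `M ≥ L + 2` nonzero rational numbers with different absolute values;
4. for all but finitely many roots of unity `t`, if it is partially degenerate at `M ≥ L` rational
   numbers `α_l` with `|α_l| ≠ 0, 1`.

The constant coordinates of `Z` can be special points or integral over the ring generated by a finite
set `Γ` of numbers algebraic over `K`, and `C` can be any coset of an algebraic subgroup by a point `η`
such that `η_j` and `1 / η_j` are integral over this ring.

**Proof.** The local criterion of `MP_a325a5_ag.PartialDegenerations` is applied to prime ideals of the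
rings `ℤ[W, t]` which contain `t - α_l` (`coreT`). For 1., the group consists of units of `ℤ[W]`, so
`t - α` is a unit of `ℤ[W, t] = ℤ[W]`, `α ≠ 0`, only for finitely many `t` (unit equation). For 2. - 4.
the prime ideals come from large prime factors of the values of the minimal polynomial of `t` at
the `α_l` (arithmetic of the starting files `MP_defd1c_ag.DivisionGroupParameters`, where all the
coordinates have poles at all the `α_l` and `n (n - 1) / 2 + k 2^k + 1` replaces `L`).
-/

set_option autoImplicit false

namespace Pool.Agent.Results.MP_e573c6_ag.UnitAndRadicalParameters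

open MvPolynomial
open Pool.Agent.Y152.RP.FamM (SpecialVariety NoAtypical)

/-- The set of the points `x` with `c_i x_i = A_i (y) / B_i (y)` for the modular coordinates and
`c_j x_j = c'_j A_j (y) / B_j (y)`, `x_j ≠ 0`, for the torus coordinates, for a point `y` of the projective
algebraic set defined by the forms `G l`. The homomorphism `f` is the specialization of the
coefficients. -/
def image {R : Type} [CommRing R] (f : R →+* ℂ) {N n k : ℕ} {κ : Type}
    (G : κ → MvPolynomial (Fin (N + 1)) R) (A B : Fin n ⊕ Fin k → MvPolynomial (Fin (N + 1)) R)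
    (c : Fin n ⊕ Fin k → R) (c' : Fin k → R) : Set (Fin n ⊕ Fin k → ℂ) :=
  {x | (∀ j, x (Sum.inr j) ≠ 0) ∧ ∃ y : Fin (N + 1) → ℂ, y ≠ 0 ∧ (∀ l, eval₂ f y (G l) = 0) ∧
    (∀ i, f (c (Sum.inl i)) * eval₂ f y (B (Sum.inl i)) * x (Sum.inl i) =
      eval₂ f y (A (Sum.inl i))) ∧
    ∀ j, f (c (Sum.inr j)) * eval₂ f y (B (Sum.inr j)) * x (Sum.inr j) =
      f (c' j) * eval₂ f y (A (Sum.inr j))}

/-- The divisors are in general position over the field `F`: no point of the projective algebraic set
lies on `m + 1` of the divisors `B i = 0` for the modular coordinates which are not degenerate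
(`e i = 0`), and `A i * B i = 0` for all other coordinates. -/
def GeneralPosition {R F : Type} [CommRing R] [Field F] (f : R →+* F) {N n k : ℕ} {κ : Type}
    (m : ℕ) (G : κ → MvPolynomial (Fin (N + 1)) R)
    (A B : Fin n ⊕ Fin k → MvPolynomial (Fin (N + 1)) R) (e : Fin n ⊕ Fin k → ℕ) : Prop :=
  ∀ I : Finset (Fin n ⊕ Fin k), I.card = m + 1 → ∀ y : Fin (N + 1) → F, y ≠ 0 →
    (∀ l, eval₂ f y (G l) = 0) →
    ∃ i ∈ I, eval₂ f y (B i) ≠ 0 ∧ ((∀ j, i = Sum.inl j → 0 < e i) → eval₂ f y (A i) ≠ 0)

/-- No product of distinct positive exponents is a square. -/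
def Independent {L n : ℕ} (e : Fin L → Fin n → ℕ) : Prop :=
  ∀ P : Finset (Fin L × Fin n), P.Nonempty → (∀ x ∈ P, 0 < e x.1 x.2) →
    ¬ IsSquare (∏ x ∈ P, e x.1 x.2)

/-- For `s ≤ m + 1` no linear subspace of `ℚ^k` of codimension `s` (or larger) is at a Hamming distance
smaller than `s` from more than `β s` of the vectors `d l`. -/
def Rigid {L k : ℕ} (m : ℕ) (β : ℕ → ℕ) (d : Fin L → Fin k → ℤ) : Prop :=
  ∀ (s : ℕ) (B : Submodule ℚ (Fin k → ℚ)), s ≤ m + 1 → Module.finrank ℚ B + s ≤ k →
    ∀ F : Finset (Fin L), (∀ l ∈ F, ∃ v ∈ B, hammingDist v (fun j => (d l j : ℚ)) < s) →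
      F.card ≤ β s

/-- The conditions on the orders at the `L` parameters. -/
def Orders {L n k : ℕ} (m : ℕ) (e : Fin L → Fin n ⊕ Fin k → ℕ) (e' : Fin L → Fin k → ℕ) : Prop :=
  Independent (fun l i => e l (Sum.inl i)) ∧ ∃ (τ : ℕ) (β : ℕ → ℕ),
    (∀ i, (Finset.univ.filter fun l => e l (Sum.inl i) = 0).card ≤ τ) ∧
    Rigid m β (fun l j => (e' l j : ℤ) - e l (Sum.inr j)) ∧
    ∀ s ≤ m + 1, β s + (m + 1 - s) * (τ + 1) < L

/-- The order of the zero at `α` of a polynomial in the parameter. -/
noncomputable def order {K : Subfield ℂ} (c : Polynomial K) (α : ℂ) : ℕ :=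
  (c.map (algebraMap K ℂ)).rootMultiplicity α

/-- The value at `t` of a polynomial in one parameter. -/
noncomputable def evalOne (K : Subfield ℂ) (t : ℂ) : Polynomial K →+* ℂ :=
  (Polynomial.aeval t : Polynomial K →ₐ[K] ℂ).toRingHom

/-- The ring of the allowed constants -/
noncomputable abbrev consts (Γ : Finset ℂ) : Algebra.adjoin ℤ (Γ : Set ℂ) →+* ℂ :=
  algebraMap (Algebra.adjoin ℤ (Γ : Set ℂ)) ℂ

/-- The forms `G l` are homogeneous, and `A i`, `B i` are homogeneous of the same degree. -/
def Forms {R ι : Type} [CommRing R] {N : ℕ} {κ : Type}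
    (G : κ → MvPolynomial (Fin (N + 1)) R) (A B : ι → MvPolynomial (Fin (N + 1)) R) : Prop :=
  (∀ l, ∃ d, (G l).IsHomogeneous d) ∧ ∀ i, ∃ d, (A i).IsHomogeneous d ∧ (B i).IsHomogeneous d

/-- `t` is algebraic over the rational numbers, of degree at most `d`. -/
def DegreeAtMost (d : ℕ) (t : ℂ) : Prop :=
  ∃ F : Polynomial ℤ, F ≠ 0 ∧ F.natDegree ≤ d ∧ Polynomial.aeval t F = 0

/-- Some power of `t` with positive exponent is a rational number. -/
def IsRadical (t : ℂ) : Prop := ∃ N : ℕ, 0 < N ∧ ∃ q : ℚ, t ^ N = (q : ℂ)

/-- `t` is a root of unity. -/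
def IsRootOfUnity (t : ℂ) : Prop := ∃ N : ℕ, 0 < N ∧ t ^ N = 1

theorem indPos {L n : ℕ} {e : Fin L → Fin n → ℕ} (h : Independent e) :
    Pool.Agent.Q170.PD.IndPos 1 e := by
  intro P hP hpos hsq
  obtain ⟨q, hq, hsq⟩ := hsq
  have h1 : q = 1 := by
    by_contra hne
    have hp := Nat.minFac_prime hne
    exact absurd (hq.2 _ hp (Nat.minFac_dvd q)) (not_le.2 hp.one_lt)
  rw [h1, mul_one] at hsq
  exact h P hP hpos hsq

theorem pos_need {n k : ℕ} {e : Fin n ⊕ Fin k → ℕ} {i : Fin n ⊕ Fin k} :
    0 < Pool.Agent.Q209.MP.needs e i ↔ ∀ j, i = Sum.inl j → 0 < e i := by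
  rcases i with i | j
  · exact ⟨fun h _ _ => h, fun h => h i rfl⟩
  · exact ⟨fun _ j h => absurd h (by simp), fun _ => Nat.one_pos⟩

/-- **Zilber-Pink for members of partially degenerating families**: parameters in finitely generated
groups, of bounded degree, radical parameters, and roots of unity. -/
theorem result (K : Subfield ℂ) [Countable K] (κ : Type) [Finite κ] (N n k m L : ℕ)
    (G : κ → MvPolynomial (Fin (N + 1)) (Polynomial K))
    (A B : Fin n ⊕ Fin k → MvPolynomial (Fin (N + 1)) (Polynomial K)) (hforms : Forms G A B)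
    (c : Fin n ⊕ Fin k → Polynomial K) (c' : Fin k → Polynomial K)
    (hc : ∀ i, c i ≠ 0) (hc' : ∀ j, c' j ≠ 0) (Γ : Finset ℂ) (hΓ : ∀ γ ∈ Γ, IsAlgebraic K γ) :
    (∀ (M : ℕ) (D : Fin M → Finset ℂ), (∀ l, ∀ α ∈ D l, IsAlgebraic K α) →
      (∀ l, ∀ α ∈ D l, GeneralPosition (evalOne K α) m G A B fun i => order (c i) α) →
      (∀ (f : Fin L → Fin M) (α : Fin L → ℂ), Function.Injective f → (∀ l, α l ∈ D (f l)) →
        Orders m (fun l i => order (c i) (α l)) (fun l j => order (c' j) (α l))) →
      (∀ I : Finset (Fin M), M + 1 ≤ I.card + L → ∃ l ∈ I, ∃ α ∈ D l, α ≠ 0) →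
      ∀ F : Finset ℂ, (∀ z ∈ F, z ≠ 0 ∧ IsAlgebraic K z) →
      {t : ℂ | (∃ k : ℂ → ℤ, t = ∏ z ∈ F, z ^ k z) ∧
        ¬ NoAtypical (consts Γ) K m (image (evalOne K t) G A B c c')}.Finite) ∧
    ∀ (M : ℕ) (α : Fin M → ℚ),
      (∀ l, GeneralPosition (evalOne K (α l : ℂ)) m G A B fun i => order (c i) (α l : ℂ)) →
      (∀ f : Fin L → Fin M, Function.Injective f →
        Orders m (fun l i => order (c i) (α (f l) : ℂ)) (fun l j => order (c' j) (α (f l) : ℂ))) →
      (Function.Injective α → ∀ d : ℕ, L + 2 * d ≤ M →
        {t : ℂ | DegreeAtMost d t ∧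
          ¬ NoAtypical (consts Γ) K m (image (evalOne K t) G A B c c')}.Finite) ∧
      ((∀ l, α l ≠ 0) → (∀ l l', l ≠ l' → |α l| ≠ |α l'|) → L + 2 ≤ M →
        {t : ℂ | IsRadical t ∧
          ¬ NoAtypical (consts Γ) K m (image (evalOne K t) G A B c c')}.Finite) ∧
      ((∀ l, α l ≠ 0 ∧ |α l| ≠ 1) → L ≤ M →
        {t : ℂ | IsRootOfUnity t ∧
          ¬ NoAtypical (consts Γ) K m (image (evalOne K t) G A B c c')}.Finite) := by
  classical
  choose d hA hB using hforms.2
  refine ⟨?_, ?_⟩
  · intro M D hD hpos hind hM F hF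
    have hposM : ∀ l, ∀ α ∈ D l, Pool.Agent.Q209.MP.PosAtM m G A B c α := by
      intro l α hα I hI y hy hG
      obtain ⟨i, hi, h1, h2⟩ := hpos l α hα I hI y hy hG
      exact ⟨i, hi, h1, fun h3 => h2 (pos_need.1 h3)⟩
    have hL0 : 0 < L := by
      by_contra h0
      have h1 : L = 0 := by omega
      subst h1
      obtain ⟨-, τ, β, -, -, hL⟩ := hind (fun l => l.elim0) (fun l => l.elim0)
        (fun l => l.elim0) (fun l => l.elim0)
      exact absurd (hL 0 (Nat.zero_le _)) (Nat.not_lt_zero _)
    exact Pool.Agent.Q209.MG.groupMG K κ N n k m M L hL0 G hforms.1 A B d hA hB c hc c' hc' D hD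
      (fun f α hf hα => by
        obtain ⟨hi, τ, β, hτ, hrig, hL⟩ := hind f α hf hα
        exact ⟨τ, β, hL, indPos hi, hτ, hrig⟩) hposM hM Γ hΓ F hF
  · intro M α hpos hind
    have hposM : ∀ l, Pool.Agent.Q209.MP.PosAtM m G A B c ((α l : ℚ) : ℂ) := by
      intro l I hI y hy hG
      obtain ⟨i, hi, h1, h2⟩ := hpos l I hI y hy hG
      exact ⟨i, hi, h1, fun h3 => h2 (pos_need.1 h3)⟩
    have main : ∀ P : Set ℂ, (∀ t ∈ P, IsAlgebraic ℤ t) →
        Pool.Agent.Y152.RP.FamM.ManyPrimes P L α →
        {t : ℂ | t ∈ P ∧
          ¬ NoAtypical (consts Γ) K m (image (evalOne K t) G A B c c')}.Finite := fun P hP hmany =>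
      Pool.Agent.Q209.MG.manyMG K κ N n k m M L G hforms.1 A B d hA hB c hc c' hc' α
        (fun f hf => by
          obtain ⟨hi, τ, β, hτ, hrig, hL⟩ := hind f hf
          exact ⟨τ, β, hL, indPos hi, hτ, hrig⟩) hposM Γ hΓ P hP hmany
    refine ⟨fun hinj e hM => ?_, fun h0 hdist hM => ?_, fun hne hM => ?_⟩
    · refine main {t | DegreeAtMost e t} ?_
        fun D => Pool.Agent.Y152.BD.finite_badD D e (by omega) α hinj
      rintro t ⟨F, hF0, -, hFt⟩
      exact ⟨F, hF0, hFt⟩
    · exact main {t | IsRadical t} (fun t ht => Pool.Agent.Y152.RP.alg_of_rad ht)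
        fun D => Pool.Agent.Y152.RP.arithMain D _ M (by omega) α h0 hdist
    · refine main {t | IsRootOfUnity t} ?_
        fun D => Pool.Agent.Y152.RP.unityMain hM α (fun l => (hne l).1) (fun l => (hne l).2) D
      rintro t ⟨e, he, ht⟩
      refine ⟨Polynomial.X ^ e - 1, ?_, by simp [ht]⟩
      exact (Polynomial.monic_X_pow_sub_C 1 he.ne').ne_zero

end Pool.Agent.Results.MP_e573c6_ag.UnitAndRadicalParameters
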